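import Pool.Agent.H9.Circ

set_option autoImplicit false

namespace Pool.Agent.Results.MP_c7ad22_co.Full

/-- The cyclic order induced on triples by positions read around a circle. -/
def Cyc (a b c : ℕ) : Prop := (a < b ∧ b < c) ∨ (b < c ∧ c < a) ∨ (c < a ∧ a < b)

/-- The pattern `p` (a graph on `Fin n` with the standard cyclic order) occurs in `(G, c)`. -/
def Occurs {V : Type} (p : Σ n, SimpleGraph (Fin n)) (G : SimpleGraph V) (c : V → ℕ) : Prop :=
  ∃ φ : p.2 ↪g G, ∀ x y z : Fin p.1, Cyc x y z ↔ Cyc (c (φ x)) (c (φ y)) (c (φ z))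

/-- `G` is `F`-free circularly orderable. -/
def Orderable {V : Type} (F : Set (Σ n, SimpleGraph (Fin n))) (G : SimpleGraph V) : Prop :=
  ∃ c : V → ℕ, Function.Injective c ∧ ∀ p ∈ F, ¬ Occurs p G c

theorem result (k : ℕ) (hk : 1 ≤ k) :
    (∃ F : Set (Σ n, SimpleGraph (Fin n)), F.Finite ∧
      ∀ (V : Type) [Fintype V] (G : SimpleGraph V), Orderable F G ↔ G.Colorable k) ↔ k = 1 := by
  constructor
  · rintro ⟨F, hF, h⟩
    by_contra q
    obtain ⟨N, G, h1, h2⟩ := Pool.Agent.H9.Circ.main k (by omega) F hF fun V _ G g => (h V G).2 g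
    exact h1 ((h _ G).1 ⟨Fin.val, Fin.val_injective, h2⟩)
  · rintro rfl
    refine ⟨{⟨2, ⊤⟩}, Set.finite_singleton _, fun V _ G => ⟨?_, fun ⟨c⟩ => ?_⟩⟩
    · rintro ⟨c, -, h⟩
      refine ⟨SimpleGraph.Coloring.mk (fun _ => 0) fun {u v} e => absurd ⟨⟨⟨![u, v], ?_⟩, ?_⟩, ?_⟩
        (h _ rfl)⟩
      · intro x y
        fin_cases x <;> fin_cases y <;> simp [e.ne, e.ne.symm]
      · intro x y
        fin_cases x <;> fin_cases y <;> simp [e, e.symm]
      · intro x y z
        fin_cases x <;> fin_cases y <;> fin_cases z <;> simp [Cyc] <;> omega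
    · refine ⟨fun v => (Fintype.equivFin V v).val,
        Fin.val_injective.comp (Equiv.injective _), ?_⟩
      rintro p rfl ⟨φ, -⟩
      exact c.valid (φ.map_adj_iff.2 (show (⊤ : SimpleGraph (Fin 2)).Adj 0 1 by simp))
        (Subsingleton.elim _ _)

end Pool.Agent.Results.MP_c7ad22_co.Full
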